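import Pool.Agent.H74.CC.Defs

set_option autoImplicit false

/-!
# [H74 CC Api] Facts on `rho`

* `rho_rho`: `P (rho l w) = l P w`, `rho l w - P (rho l w) = w - P w` (`map_add`, `map_smul`, `map_sub`, `idem`).
* `rho_ball`, `rho_closedBall`: `‖rho l w‖² = |l|² ‖P w‖² + ‖w - P w‖² ≤ ‖w‖²` (`norm` for `l = 1` gives `‖w‖² = ‖P w‖² + ‖w - P w‖²`).
* `exists_isPr`: `P = K.starProjection` (orthogonal projection on `K` as a map `V n → V n`); `‖l • a + b‖² = |l|² ‖a‖² + ‖b‖²` for `a ∈ K`, `b ∈ Kᗮ`.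
* `sph_dense`: let `P z = 0`, `‖z‖ = 1`, take `e` with `P e ≠ 0`; `z_s = (z + s e) / ‖z + s e‖ → z` for real `s → 0+`, `P z_s ≠ 0` for `s > 0`
  (`P (z + s e) = s P e`), so `‖f z_s‖ = ‖g z_s‖`; continuity of `f`, `g` on the closed ball.
-/

namespace Pool.Agent.H74.CC

open MeasureTheory Metric Pool.Agent.H74.CB Filter Topology

variable {n : ℕ} {P : V n →L[ℂ] V n}

theorem P_rho (hP : IsPr P) (l : ℂ) (w : V n) : P (rho P l w) = l • P w := by
  unfold rho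
  rw [map_add, map_smul, map_sub, hP.idem, sub_self, add_zero]

theorem sub_rho (hP : IsPr P) (l : ℂ) (w : V n) : rho P l w - P (rho P l w) = w - P w := by
  rw [P_rho hP]
  unfold rho
  rw [add_sub_cancel_left]

theorem rho_rho (hP : IsPr P) (l m : ℂ) (w : V n) : rho P l (rho P m w) = rho P (l * m) w := by
  have h1 : rho P l (rho P m w) = l • P (rho P m w) + (rho P m w - P (rho P m w)) := rfl
  rw [h1, sub_rho hP, P_rho hP, smul_smul]
  rfl

theorem rho_one (w : V n) : rho P 1 w = w := by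
  unfold rho
  rw [one_smul, add_sub_cancel]

theorem norm_sq (hP : IsPr P) (w : V n) : ‖w‖ ^ 2 = ‖P w‖ ^ 2 + ‖w - P w‖ ^ 2 := by
  have h1 := hP.norm 1 w
  rwa [one_smul, add_sub_cancel, norm_one, one_pow, one_mul] at h1

theorem norm_rho_sq (hP : IsPr P) (l : ℂ) (w : V n) :
    ‖rho P l w‖ ^ 2 = ‖l‖ ^ 2 * ‖P w‖ ^ 2 + ‖w - P w‖ ^ 2 := hP.norm l w

private theorem norm_rho_le (hP : IsPr P) (l : ℂ) (hl : ‖l‖ ≤ 1) (w : V n) : ‖rho P l w‖ ≤ ‖w‖ := by
  refine le_of_sq_le_sq ?_ (norm_nonneg _)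
  rw [norm_rho_sq hP, norm_sq hP w]
  have h1 : ‖l‖ ^ 2 ≤ 1 := pow_le_one₀ (norm_nonneg _) hl
  nlinarith [sq_nonneg ‖P w‖]

theorem rho_ball (hP : IsPr P) (l : ℂ) (hl : ‖l‖ ≤ 1) (w : V n) (hw : w ∈ ball (0 : V n) 1) :
    rho P l w ∈ ball (0 : V n) 1 := by
  rw [mem_ball_zero_iff] at hw ⊢
  exact (norm_rho_le hP l hl w).trans_lt hw

theorem rho_closedBall (hP : IsPr P) (l : ℂ) (hl : ‖l‖ ≤ 1) (w : V n)
    (hw : w ∈ closedBall (0 : V n) 1) : rho P l w ∈ closedBall (0 : V n) 1 := by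
  rw [mem_closedBall_zero_iff] at hw ⊢
  exact (norm_rho_le hP l hl w).trans hw

theorem rho_sphere (hP : IsPr P) (l : ℂ) (hl : ‖l‖ = 1) (w : V n) (hw : ‖w‖ = 1) :
    ‖rho P l w‖ = 1 := by
  have h1 : ‖rho P l w‖ ^ 2 = 1 := by
    rw [norm_rho_sq hP, hl, one_pow, one_mul, ← norm_sq hP w, hw, one_pow]
  exact (pow_eq_one_iff_of_nonneg (norm_nonneg _) two_ne_zero).1 h1

/-- the open disc goes into the open ball -/
theorem rho_lt (hP : IsPr P) (l : ℂ) (hl : ‖l‖ < 1) (w : V n) (hw : ‖w‖ = 1) (h0 : P w ≠ 0) :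
    rho P l w ∈ ball (0 : V n) 1 := by
  rw [mem_ball_zero_iff]
  have h1 : ‖rho P l w‖ ^ 2 < 1 := by
    have e1 := norm_sq hP w
    rw [hw, one_pow] at e1
    rw [norm_rho_sq hP, e1]
    have e2 : ‖l‖ ^ 2 < 1 := pow_lt_one₀ (norm_nonneg _) hl two_ne_zero
    have e3 : 0 < ‖P w‖ ^ 2 := by
      have := norm_pos_iff.2 h0
      positivity
    nlinarith
  exact (sq_lt_one_iff₀ (norm_nonneg _)).1 h1

theorem exists_isPr (K : Submodule ℂ (V n)) (hK : K ≠ ⊥) : ∃ P : V n →L[ℂ] V n, IsPr P ∧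
    (∀ w, P w ∈ K) ∧ ∀ w, w - P w ∈ Kᗮ := by
  refine ⟨K.starProjection, ⟨fun w => ?_, fun l w => ?_, ?_⟩, fun w => ?_, fun w => ?_⟩
  · exact Submodule.starProjection_eq_self_iff.2 (Submodule.starProjection_apply_mem K w)
  · have h1 : inner ℂ (l • K.starProjection w) (w - K.starProjection w) = 0 :=
      Submodule.inner_right_of_mem_orthogonal
        (K.smul_mem l (Submodule.starProjection_apply_mem K w))
        (Submodule.sub_starProjection_mem_orthogonal w)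
    have h2 := norm_add_sq_eq_norm_sq_add_norm_sq_of_inner_eq_zero _ _ h1
    rw [norm_smul] at h2
    calc ‖l • K.starProjection w + (w - K.starProjection w)‖ ^ 2
        = ‖l • K.starProjection w + (w - K.starProjection w)‖ *
          ‖l • K.starProjection w + (w - K.starProjection w)‖ := sq _
      _ = _ := by rw [h2]; ring
  · obtain ⟨w, hw, h0⟩ := (Submodule.ne_bot_iff K).1 hK
    refine ⟨w, ?_⟩
    rw [Submodule.starProjection_eq_self_iff.2 hw]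
    exact h0
  · exact Submodule.starProjection_apply_mem K w
  · exact Submodule.sub_starProjection_mem_orthogonal w

theorem sph_dense (hP : IsPr P) (f g : V n → ℂ)
    (hf : ContinuousOn f (closedBall (0 : V n) 1)) (hg : ContinuousOn g (closedBall (0 : V n) 1))
    (h : ∀ z : V n, ‖z‖ = 1 → P z ≠ 0 → ‖f z‖ = ‖g z‖) (z : V n) (hz : ‖z‖ = 1) :
    ‖f z‖ = ‖g z‖ := by
  by_cases h0 : P z = 0
  swap
  · exact h z hz h0
  obtain ⟨e, he⟩ := hP.ne
  have hmem : z ∈ closedBall (0 : V n) 1 := by rw [mem_closedBall_zero_iff, hz]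
  -- the curve
  obtain ⟨u, hu⟩ : ∃ u : ℝ → V n, u = fun s : ℝ => z + (s : ℂ) • e := ⟨_, rfl⟩
  have hPu : ∀ s : ℝ, 0 < s → P (u s) ≠ 0 := by
    intro s hs
    rw [hu]
    show P (z + (s : ℂ) • e) ≠ 0
    rw [map_add, map_smul, h0, zero_add]
    exact smul_ne_zero (by exact_mod_cast hs.ne') he
  have hu0 : ∀ s : ℝ, 0 < s → u s ≠ 0 := by
    intro s hs h1
    exact hPu s hs (by rw [h1, map_zero])
  have hcu : Continuous u := by
    rw [hu]
    fun_prop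
  have huz : u 0 = z := by
    rw [hu]
    simp
  obtain ⟨v, hv⟩ : ∃ v : ℝ → V n, v = fun s : ℝ => ((‖u s‖⁻¹ : ℝ) : ℂ) • u s := ⟨_, rfl⟩
  have hvz : v 0 = z := by
    rw [hv]
    simp [huz, hz]
  have hcv : ContinuousAt v 0 := by
    rw [hv]
    have e1 : ContinuousAt (fun s : ℝ => ‖u s‖⁻¹) 0 := by
      refine ContinuousAt.inv₀ hcu.norm.continuousAt ?_
      rw [huz, hz]
      exact one_ne_zero
    have e2 : ContinuousAt (fun s : ℝ => ((‖u s‖⁻¹ : ℝ) : ℂ)) 0 :=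
      (Complex.continuous_ofReal.continuousAt).comp e1
    exact e2.smul hcu.continuousAt
  have hvn : ∀ s : ℝ, 0 < s → ‖v s‖ = 1 := by
    intro s hs
    rw [hv]
    show ‖((‖u s‖⁻¹ : ℝ) : ℂ) • u s‖ = 1
    rw [norm_smul, Complex.norm_real, norm_inv, norm_norm]
    exact inv_mul_cancel₀ (norm_ne_zero_iff.2 (hu0 s hs))
  have hPv : ∀ s : ℝ, 0 < s → P (v s) ≠ 0 := by
    intro s hs
    rw [hv]
    show P (((‖u s‖⁻¹ : ℝ) : ℂ) • u s) ≠ 0
    rw [map_smul]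
    refine smul_ne_zero ?_ (hPu s hs)
    exact_mod_cast inv_ne_zero (norm_ne_zero_iff.2 (hu0 s hs))
  have ht : Tendsto v (𝓝[>] (0 : ℝ)) (𝓝[closedBall (0 : V n) 1] z) := by
    refine tendsto_nhdsWithin_iff.2 ⟨?_, ?_⟩
    · have h1 : Tendsto v (𝓝 0) (𝓝 z) := by
        have h2 := hcv.tendsto
        rwa [hvz] at h2
      exact h1.mono_left nhdsWithin_le_nhds
    · filter_upwards [self_mem_nhdsWithin] with s hs
      rw [mem_closedBall_zero_iff]
      exact (hvn s hs).le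
  have h1 : Tendsto (fun s => ‖f (v s)‖) (𝓝[>] (0 : ℝ)) (𝓝 ‖f z‖) := ((hf z hmem).tendsto.comp ht).norm
  have h2 : Tendsto (fun s => ‖g (v s)‖) (𝓝[>] (0 : ℝ)) (𝓝 ‖g z‖) := ((hg z hmem).tendsto.comp ht).norm
  refine tendsto_nhds_unique (h1.congr' ?_) h2
  filter_upwards [self_mem_nhdsWithin] with s hs
  exact h (v s) (hvn s hs) (hPv s hs)

end Pool.Agent.H74.CC
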