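import Pool.Agent.H74.CC.Api

set_option autoImplicit false

/-!
# [H74 CC Cone] The measure of the set of the `rho P t ζ` (from the statements of `Api`)

Let `A` be measurable in the sphere, not null, and `C = Ioo 0 1 • A` its cone, of positive volume (`toSphere_apply'`). Suppose all `S M` are null, so `N = ⋃ M, S M` is null.
For `x = s ζ ∈ C` (`‖ζ‖ = 1`, `0 < s < 1`, `P ζ ≠ 0`) put `w = rho P s ζ = s P ζ + (ζ - P ζ)`; `w ∈ N` by `hS`. Then `P w = P x`, `w - P w = ζ - P ζ`,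
`x = P w + s (w - P w)`, and `s² (1 - ‖w - P w‖²) = s² ‖P ζ‖² = ‖P w‖²`, so `x = J w`, `J w = P w + (‖P w‖ / √(1 - ‖w - P w‖²)) (w - P w)`.
`J` is differentiable (real) on the open set `U = {w | P w ≠ 0 ∧ ‖w - P w‖ < 1}`, and `w ∈ U`; so `C ⊆ J '' (N ∩ U) ∪ ker P`. The first set is null by
`MeasureTheory.addHaar_image_eq_zero_of_differentiableOn_of_addHaar_eq_zero`, and `ker P` (a proper subspace) is null by `Measure.addHaar_submodule`
(real subspaces: `restrictScalars ℝ`). Contradiction.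
-/

namespace Pool.Agent.H74.CC

open MeasureTheory Metric Pool.Agent.H74.CB

variable {n : ℕ} {P : V n →L[ℂ] V n}

theorem cone_union (hP : IsPr P) (A : Set (sphere (0 : V n) 1)) (hA : MeasurableSet A)
    (hpos : (volume : Measure (V n)).toSphere A ≠ 0) (S : ℕ → Set (V n))
    (hS : ∀ ζ ∈ A, P (ζ : V n) ≠ 0 → ∀ t : ℝ, 0 < t → t < 1 → ∃ M, rho P t (ζ : V n) ∈ S M) :
    ∃ M, (volume : Measure (V n)) (S M) ≠ 0 := by
  sorry

end Pool.Agent.H74.CC
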