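import Pool.Agent.H74.CB.Defs

set_option autoImplicit false

/-!
# [H74 CC Defs] MP_845814_an, the stronger form: sets made of circles `{t p + q}`

`P` is an orthogonal projection of `ℂ^n`, not `0` (`IsPr`), `rho P l w = l P w + (w - P w)` (`H74/CB` is the case `P = 1`, `rho P l w = l w`).
THEOREM. If `n ≥ 2` and the set of all `ζ` in the sphere with `|f| = |g| ≠ 0` on the circle `{rho P t ζ : |t| = 1}` has positive measure, then `f = c g`.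

PROOF. As in `H74/CB`, with the discs `l ↦ rho P l ζ` (for `P ζ ≠ 0`). With `w = rho P t ζ`, `0 < t < 1`, `r = ‖P w‖² = t² ‖P ζ‖²`,
`q = 1 - ‖w - P w‖² = 1 - ‖ζ - P ζ‖² = ‖P ζ‖²`, so `r = t² q`, and `v_i = u_i t^i`:
`r^M q^M f(rho l w) ∑ v_i l^i = g(rho l w) ∑ conj(v_i) (r l)^(2M-i) q^i`, as both sides are `q^(2M) t^(2M)` times the two sides of the
relation of `f (rho (l t) ζ)` and `g (rho (l t) ζ)`.
-/

namespace Pool.Agent.H74.CC

open MeasureTheory Metric Pool.Agent.H74.CB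

/-- orthogonal projections different from `0` -/
structure IsPr {n : ℕ} (P : V n →L[ℂ] V n) : Prop where
  idem : ∀ w, P (P w) = P w
  norm : ∀ (l : ℂ) (w : V n), ‖l • P w + (w - P w)‖ ^ 2 = ‖l‖ ^ 2 * ‖P w‖ ^ 2 + ‖w - P w‖ ^ 2
  ne : ∃ w, P w ≠ 0

/-- the disc through `w` -/
noncomputable def rho {n : ℕ} (P : V n →L[ℂ] V n) (l : ℂ) (w : V n) : V n := l • P w + (w - P w)

/-- the terms with `f` -/
noncomputable def cp {n : ℕ} (P : V n →L[ℂ] V n) (M : ℕ) (f : V n → ℂ) (w : V n) (l : ℂ) (i : ℕ) : ℂ :=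
  (((‖P w‖ ^ 2 : ℝ) : ℂ) * ((1 - ‖w - P w‖ ^ 2 : ℝ) : ℂ)) ^ M * f (rho P l w) * l ^ i

/-- the terms with `g` -/
noncomputable def cq {n : ℕ} (P : V n →L[ℂ] V n) (M : ℕ) (g : V n → ℂ) (w : V n) (l : ℂ) (i : ℕ) : ℂ :=
  g (rho P l w) * ((((‖P w‖ ^ 2 : ℝ) : ℂ) * l) ^ (2 * M - i) * ((1 - ‖w - P w‖ ^ 2 : ℝ) : ℂ) ^ i)

/-- coefficients of the real linear system: `v i = x (i, 0) + I * x (i, 1)` -/
noncomputable def cf {n : ℕ} (P : V n →L[ℂ] V n) (M : ℕ) (f g : V n → ℂ) (w : V n)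
    (l : closedBall (0 : ℂ) 1) (α : Fin (2 * M + 1) × Fin 2) : ℂ :=
  if α.2 = 0 then cp P M f w l α.1 - cq P M g w l α.1
  else Complex.I * (cp P M f w l α.1 + cq P M g w l α.1)

end Pool.Agent.H74.CC
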