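import Pool.Agent.H74.CC.Api

set_option autoImplicit false

/-!
# [H74 CC Ker] Solutions of the real linear system (the analogue of `H74/CB/Ker`, from the statements of `Api`)

* `cf_ker`: `w = rho P t ζ`; `‖P w‖² = t² ‖P ζ‖²`, `1 - ‖w - P w‖² = 1 - ‖ζ - P ζ‖² = ‖P ζ‖² = q` (`norm_sq`, `‖ζ‖ = 1`), `rho P l w = rho P (l t) ζ`; with
  `v i = u i * t ^ i`: `(t² q * q)^M u_i t^i l^i = q^(2M) t^(2M) u_i (l t)^i` and `conj (u_i) t^i (t² q l)^(2M-i) q^i = q^(2M) t^(2M) conj (u_i) (l t)^(2M-i)`.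
* `cf_sph`: `‖P ζ‖² = 1 - ‖ζ - P ζ‖² = q ≠ 0`; all coefficients of the case `P = 1` are multiplied by `q^(2M)`; `rho P l ζ` in place of `l ζ`, `rho_one`.
-/

namespace Pool.Agent.H74.CC

open MeasureTheory Metric Pool.Agent.H74.CB

variable {n : ℕ} {P : V n →L[ℂ] V n}

private theorem psplit (z : ℂ) {N i j : ℕ} (h : N = i + j) : z ^ N = z ^ i * z ^ j := by
  rw [h, pow_add]

private theorem cf_sum (M : ℕ) (f g : V n → ℂ) (w : V n) (l : closedBall (0 : ℂ) 1)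
    (x : Fin (2 * M + 1) × Fin 2 → ℝ) :
    ∑ α, (x α : ℂ) * cf P M f g w l α =
      ∑ i : Fin (2 * M + 1), (((x (i, 0) : ℂ) + Complex.I * (x (i, 1) : ℂ)) * cp P M f w l i -
        (starRingEnd ℂ) ((x (i, 0) : ℂ) + Complex.I * (x (i, 1) : ℂ)) * cq P M g w l i) := by
  rw [Fintype.sum_prod_type]
  refine Finset.sum_congr rfl fun i _ => ?_
  rw [Fin.sum_univ_two]
  have h0 : cf P M f g w l (i, 0) = cp P M f w l i - cq P M g w l i := by simp [cf]
  have h1 : cf P M f g w l (i, 1) = Complex.I * (cp P M f w l i + cq P M g w l i) := by simp [cf]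
  rw [h0, h1, map_add, map_mul, Complex.conj_ofReal, Complex.conj_ofReal, Complex.conj_I]
  ring

theorem cf_ker (hP : IsPr P) (M : ℕ) (f g : V n → ℂ) (ζ : V n) (hζ : ‖ζ‖ = 1) (hPζ : P ζ ≠ 0)
    (t : ℝ) (ht0 : 0 < t) (ht1 : t < 1) (u : ℕ → ℂ) (hu0 : ∃ i, i < 2 * M + 1 ∧ u i ≠ 0)
    (hu : ∀ l : ℂ, ‖l‖ ≤ 1 → f (rho P l ζ) * ∑ i ∈ Finset.range (2 * M + 1), u i * l ^ i =
      g (rho P l ζ) * ∑ i ∈ Finset.range (2 * M + 1), (starRingEnd ℂ) (u i) * l ^ (2 * M - i)) :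
    ∃ x : Fin (2 * M + 1) × Fin 2 → ℝ, x ≠ 0 ∧
      ∀ l : closedBall (0 : ℂ) 1, ∑ α, (x α : ℂ) * cf P M f g (rho P t ζ) l α = 0 := by
  set v : ℕ → ℂ := fun i => u i * (t : ℂ) ^ i with hv
  refine ⟨fun α => if α.2 = 0 then (v α.1).re else (v α.1).im, ?_, ?_⟩
  · intro hx
    obtain ⟨i, hi, hne⟩ := hu0
    have h0 := congrFun hx (⟨i, hi⟩, 0)
    have h1 := congrFun hx (⟨i, hi⟩, 1)
    simp only [if_true, Pi.zero_apply] at h0
    simp only [one_ne_zero, if_false, Pi.zero_apply] at h1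
    have h2 : v i = 0 := Complex.ext h0 h1
    have ht : (t : ℂ) ≠ 0 := by exact_mod_cast ht0.ne'
    exact (mul_ne_zero hne (pow_ne_zero _ ht)) h2
  · intro l
    rw [cf_sum]
    have hl : ‖(l : ℂ)‖ ≤ 1 := mem_closedBall_zero_iff.mp l.2
    have hlt : ‖(l : ℂ) * (t : ℂ)‖ ≤ 1 := by
      rw [norm_mul, Complex.norm_real, Real.norm_eq_abs, abs_of_pos ht0]
      calc ‖(l : ℂ)‖ * t ≤ 1 * 1 := mul_le_mul hl ht1.le ht0.le zero_le_one
        _ = 1 := one_mul 1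
    have hE := hu _ hlt
    set q : ℝ := ‖P ζ‖ ^ 2 with hq
    have hsm : rho P (l : ℂ) (rho P (t : ℂ) ζ) = rho P ((l : ℂ) * (t : ℂ)) ζ := rho_rho hP _ _ _
    have hnw : ‖P (rho P (t : ℂ) ζ)‖ ^ 2 = t ^ 2 * q := by
      rw [P_rho hP, norm_smul, mul_pow, Complex.norm_real, Real.norm_eq_abs, sq_abs]
    have hnq : 1 - ‖rho P (t : ℂ) ζ - P (rho P (t : ℂ) ζ)‖ ^ 2 = q := by
      rw [sub_rho hP]
      have := norm_sq hP ζ
      rw [hζ] at this
      rw [hq]; linarith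
    have key : ∀ i : Fin (2 * M + 1),
        (((((fun α : Fin (2 * M + 1) × Fin 2 => if α.2 = 0 then (v α.1).re else (v α.1).im) (i, 0) : ℝ) : ℂ) +
          Complex.I * (((fun α : Fin (2 * M + 1) × Fin 2 => if α.2 = 0 then (v α.1).re else (v α.1).im) (i, 1) : ℝ) : ℂ)) * cp P M f (rho P t ζ) l i -
        (starRingEnd ℂ) ((((fun α : Fin (2 * M + 1) × Fin 2 => if α.2 = 0 then (v α.1).re else (v α.1).im) (i, 0) : ℝ) : ℂ) +
          Complex.I * (((fun α : Fin (2 * M + 1) × Fin 2 => if α.2 = 0 then (v α.1).re else (v α.1).im) (i, 1) : ℝ) : ℂ)) * cq P M g (rho P t ζ) l i) =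
        ((q : ℂ) ^ (2 * M) * (t : ℂ) ^ (2 * M)) * (f (rho P ((l : ℂ) * (t : ℂ)) ζ) * (u i * ((l : ℂ) * (t : ℂ)) ^ (i : ℕ))) -
        ((q : ℂ) ^ (2 * M) * (t : ℂ) ^ (2 * M)) * (g (rho P ((l : ℂ) * (t : ℂ)) ζ) * ((starRingEnd ℂ) (u i) * ((l : ℂ) * (t : ℂ)) ^ (2 * M - (i : ℕ)))) := by
      intro i
      have e1 : (((fun α : Fin (2 * M + 1) × Fin 2 => if α.2 = 0 then (v α.1).re else (v α.1).im) (i, 0) : ℝ) : ℂ) +
          Complex.I * (((fun α : Fin (2 * M + 1) × Fin 2 => if α.2 = 0 then (v α.1).re else (v α.1).im) (i, 1) : ℝ) : ℂ) = v i := by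
        simp only [if_true, one_ne_zero, if_false]
        rw [mul_comm Complex.I]
        exact Complex.re_add_im (v i)
      rw [e1]
      simp only [cp, cq, hv, hsm, hnw, hnq]
      rw [map_mul, map_pow, Complex.conj_ofReal]
      obtain ⟨j, hj⟩ : ∃ j, 2 * M = (i : ℕ) + j := ⟨2 * M - i, by have := i.2; omega⟩
      have hj2 : 2 * M - (i : ℕ) = j := by omega
      rw [hj2]
      push_cast
      have e2 : ((t : ℂ) ^ 2 * (q : ℂ) * (q : ℂ)) ^ M = (q : ℂ) ^ (2 * M) * ((t : ℂ) ^ (i : ℕ) * (t : ℂ) ^ j) := by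
        rw [← psplit _ hj, show (t : ℂ) ^ 2 * (q : ℂ) * (q : ℂ) = (q * t : ℂ) ^ 2 by ring, ← pow_mul, mul_pow]
      have e3 : (t : ℂ) ^ (2 * M) = (t : ℂ) ^ (i : ℕ) * (t : ℂ) ^ j := by
        exact psplit _ hj
      have e4 : (q : ℂ) ^ (2 * M) = (q : ℂ) ^ (i : ℕ) * (q : ℂ) ^ j := by
        exact psplit _ hj
      have e5 : ((t : ℂ) ^ 2 * (q : ℂ) * (l : ℂ)) ^ j * (q : ℂ) ^ (i : ℕ) = (q : ℂ) ^ (2 * M) * ((t : ℂ) ^ j * (t : ℂ) ^ j * (l : ℂ) ^ j) := by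
        rw [e4, mul_pow, mul_pow, ← pow_mul (t : ℂ) 2 j, show 2 * j = j + j by ring, pow_add]
        ring
      rw [e2, e3, e5, mul_pow, mul_pow]
      ring
    rw [Finset.sum_congr rfl fun i _ => key i, Finset.sum_sub_distrib, ← Finset.mul_sum, ← Finset.mul_sum,
      ← Finset.mul_sum, ← Finset.mul_sum, ← mul_sub]
    rw [Finset.sum_range, Finset.sum_range] at hE
    rw [hE, sub_self, mul_zero]

theorem cf_sph (hP : IsPr P) (M : ℕ) (f g : V n → ℂ)
    (hf : ContinuousOn f (closedBall (0 : V n) 1)) (hg : ContinuousOn g (closedBall (0 : V n) 1))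
    (ζ : V n) (hζ : ‖ζ‖ = 1) (hPζ : P ζ ≠ 0)
    (h : ∃ x : Fin (2 * M + 1) × Fin 2 → ℝ, x ≠ 0 ∧
      ∀ l : closedBall (0 : ℂ) 1, ∑ α, (x α : ℂ) * cf P M f g ζ l α = 0) : ‖f ζ‖ = ‖g ζ‖ := by
  obtain ⟨x, hx0, hx⟩ := h
  set v : Fin (2 * M + 1) → ℂ := fun i => (x (i, 0) : ℂ) + Complex.I * (x (i, 1) : ℂ) with hv
  set Q : Polynomial ℂ := ∑ i : Fin (2 * M + 1), Polynomial.C (v i) * Polynomial.X ^ (i : ℕ) with hQdef
  have hPc : ∀ i : Fin (2 * M + 1), Q.coeff i = v i := by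
    intro i
    rw [hQdef, Polynomial.finsetSum_coeff]
    simp only [Polynomial.coeff_C_mul, Polynomial.coeff_X_pow]
    rw [Finset.sum_eq_single i]
    · simp
    · intro j _ hj
      have : (i : ℕ) ≠ (j : ℕ) := fun h => hj (Fin.ext h.symm)
      rw [if_neg this, mul_zero]
    · intro hi; exact absurd (Finset.mem_univ i) hi
  have hQ0 : Q ≠ 0 := by
    intro hQ0
    apply hx0
    ext ⟨i, k⟩
    have h1 : v i = 0 := by rw [← hPc i, hQ0, Polynomial.coeff_zero]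
    have hre : x (i, 0) = 0 := by
      have := congrArg Complex.re h1
      simpa [hv] using this
    have him : x (i, 1) = 0 := by
      have := congrArg Complex.im h1
      simpa [hv] using this
    fin_cases k
    · exact hre
    · exact him
  have hev : ∀ l : ℂ, Q.eval l = ∑ i : Fin (2 * M + 1), v i * l ^ (i : ℕ) := by
    intro l
    rw [hQdef, Polynomial.eval_finsetSum]
    simp
  set q : ℝ := ‖P ζ‖ ^ 2 with hq
  have hnq : 1 - ‖ζ - P ζ‖ ^ 2 = q := by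
    have := norm_sq hP ζ
    rw [hζ] at this
    rw [hq]; linarith
  have hq0 : (q : ℂ) ≠ 0 := by
    have : 0 < q := by
      have := norm_pos_iff.2 hPζ
      rw [hq]; positivity
    exact_mod_cast this.ne'
  -- the identity on the circle
  have hcirc : ∀ l : ℂ, ‖l‖ = 1 → Q.eval l ≠ 0 → ‖f (rho P l ζ)‖ = ‖g (rho P l ζ)‖ := by
    intro l hl hPl
    have hlm : l ∈ closedBall (0 : ℂ) 1 := by simp [hl]
    have h1 := hx ⟨l, hlm⟩
    rw [cf_sum] at h1
    have hcp : ∀ i : Fin (2 * M + 1), cp P M f ζ l i = (q : ℂ) ^ (2 * M) * (f (rho P l ζ) * l ^ (i : ℕ)) := by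
      intro i
      simp only [cp, hnq]
      rw [← hq, ← sq, ← pow_mul]
      ring
    have hcq : ∀ i : Fin (2 * M + 1), cq P M g ζ l i = (q : ℂ) ^ (2 * M) * (g (rho P l ζ) * l ^ (2 * M - (i : ℕ))) := by
      intro i
      obtain ⟨j, hj⟩ : ∃ j, 2 * M = (i : ℕ) + j := ⟨2 * M - i, by have := i.2; omega⟩
      have hj2 : 2 * M - (i : ℕ) = j := by omega
      simp only [cq, hnq]
      rw [← hq, hj2, psplit (q : ℂ) hj, mul_pow]
      ring
    have hQ : ∑ i : Fin (2 * M + 1), (starRingEnd ℂ) (v i) * l ^ (2 * M - (i : ℕ)) =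
        l ^ (2 * M) * (starRingEnd ℂ) (Q.eval l) := by
      rw [hev, map_sum, Finset.mul_sum]
      refine Finset.sum_congr rfl fun i _ => ?_
      rw [map_mul, map_pow]
      obtain ⟨j, hj⟩ : ∃ j, 2 * M = (i : ℕ) + j := ⟨2 * M - i, by have := i.2; omega⟩
      have hj2 : 2 * M - (i : ℕ) = j := by omega
      rw [hj2, psplit l hj]
      have hll : l ^ (i : ℕ) * (starRingEnd ℂ) l ^ (i : ℕ) = 1 := by
        rw [← mul_pow, Complex.mul_conj, Complex.normSq_eq_norm_sq, hl]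
        simp
      calc (starRingEnd ℂ) (v i) * l ^ j = (starRingEnd ℂ) (v i) * l ^ j * (l ^ (i : ℕ) * (starRingEnd ℂ) l ^ (i : ℕ)) := by
            rw [hll, mul_one]
        _ = _ := by ring
    have h2 : (q : ℂ) ^ (2 * M) * (f (rho P l ζ) * Q.eval l) =
        (q : ℂ) ^ (2 * M) * (g (rho P l ζ) * (l ^ (2 * M) * (starRingEnd ℂ) (Q.eval l))) := by
      rw [← hQ, hev, Finset.mul_sum, Finset.mul_sum, Finset.mul_sum, Finset.mul_sum, ← sub_eq_zero,
        ← Finset.sum_sub_distrib, ← h1]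
      refine Finset.sum_congr rfl fun i _ => ?_
      have e1 := hcp i
      have e2 := hcq i
      simp only [e1, e2, hv]
      ring
    have h3 := congrArg norm (mul_left_cancel₀ (pow_ne_zero _ hq0) h2)
    rw [norm_mul, norm_mul, norm_mul, norm_pow, hl, one_pow, one_mul, RCLike.norm_conj] at h3
    exact mul_right_cancel₀ (norm_ne_zero_iff.mpr hPl) h3
  -- points of the circle near 1
  have hexp : Filter.Tendsto (fun s : ℝ => Complex.exp ((s : ℂ) * Complex.I)) (nhdsWithin 0 (Set.Ioi 0)) (nhds 1) := by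
    have : ContinuousAt (fun s : ℝ => Complex.exp ((s : ℂ) * Complex.I)) 0 := by fun_prop
    have h := this.tendsto
    simp only [Complex.ofReal_zero, zero_mul, Complex.exp_zero] at h
    exact h.mono_left nhdsWithin_le_nhds
  have hPe : ∀ᶠ s : ℝ in nhdsWithin 0 (Set.Ioi 0), Q.eval (Complex.exp ((s : ℂ) * Complex.I)) ≠ 0 := by
    have hfin : (Q.roots.toFinset.erase 1 : Set ℂ).Finite := Finset.finite_toSet _
    have h1 : ∀ᶠ s : ℝ in nhdsWithin 0 (Set.Ioi 0), Complex.exp ((s : ℂ) * Complex.I) ∉ (Q.roots.toFinset.erase 1 : Set ℂ) := by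
      have hopen : IsOpen ((Q.roots.toFinset.erase 1 : Set ℂ)ᶜ) := hfin.isClosed.isOpen_compl
      have hmem : (1 : ℂ) ∈ ((Q.roots.toFinset.erase 1 : Set ℂ)ᶜ) := by simp
      exact hexp.eventually (hopen.mem_nhds hmem)
    have h2 : ∀ᶠ s : ℝ in nhdsWithin 0 (Set.Ioi 0), Complex.exp ((s : ℂ) * Complex.I) ≠ 1 := by
      have : Set.Ioo (0 : ℝ) 1 ∈ nhdsWithin (0 : ℝ) (Set.Ioi 0) := Ioo_mem_nhdsGT one_pos
      filter_upwards [this] with s hs heq
      have him := congrArg Complex.im heq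
      rw [Complex.exp_ofReal_mul_I_im, Complex.one_im] at him
      exact (Real.sin_pos_of_pos_of_lt_pi hs.1 (hs.2.trans (by linarith [Real.pi_gt_three]))).ne' him
    filter_upwards [h1, h2] with s hs1 hs2 hroot
    apply hs1
    rw [Finset.mem_coe, Finset.mem_erase, Multiset.mem_toFinset, Polynomial.mem_roots hQ0]
    exact ⟨hs2, hroot⟩
  have hζm : ζ ∈ closedBall (0 : V n) 1 := by rw [mem_closedBall_zero_iff, hζ]
  have hmem : ∀ s : ℝ, rho P (Complex.exp ((s : ℂ) * Complex.I)) ζ ∈ closedBall (0 : V n) 1 := by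
    intro s
    exact rho_closedBall hP _ (Complex.norm_exp_ofReal_mul_I s).le _ hζm
  have hlim : Filter.Tendsto (fun s : ℝ => rho P (Complex.exp ((s : ℂ) * Complex.I)) ζ) (nhdsWithin 0 (Set.Ioi 0))
      (nhdsWithin ζ (closedBall (0 : V n) 1)) := by
    rw [tendsto_nhdsWithin_iff]
    refine ⟨?_, Filter.Eventually.of_forall hmem⟩
    have := (hexp.smul_const (P ζ)).add_const (ζ - P ζ)
    rw [one_smul, add_sub_cancel] at this
    exact this
  have hA : Filter.Tendsto (fun s : ℝ => ‖f (rho P (Complex.exp ((s : ℂ) * Complex.I)) ζ)‖) (nhdsWithin 0 (Set.Ioi 0)) (nhds ‖f ζ‖) :=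
    ((hf ζ hζm).tendsto.comp hlim).norm
  have hB : Filter.Tendsto (fun s : ℝ => ‖g (rho P (Complex.exp ((s : ℂ) * Complex.I)) ζ)‖) (nhdsWithin 0 (Set.Ioi 0)) (nhds ‖g ζ‖) :=
    ((hg ζ hζm).tendsto.comp hlim).norm
  refine tendsto_nhds_unique (hA.congr' ?_) hB
  filter_upwards [hPe] with s hs
  exact hcirc _ (Complex.norm_exp_ofReal_mul_I s) hs

end Pool.Agent.H74.CC
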