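import Pool.Agent.H74.CC.Api

set_option autoImplicit false

/-!
# [H74 CC Lin] The coefficient functions (the analogue of `H74/CB/Lin`, from the statements of `Api`)

* `cf_ana`: `‖P (a + s v)‖²` and `‖(a + s v) - P (a + s v)‖²` are polynomials in `s`; `rho P l (a + τ v) = rho P l a + τ • rho P l v` (linear), so
  `τ ↦ f (rho P l (a + τ v))` is differentiable on the open set of the complex `τ` with `a + τ v ∈ ball 0 1` (`rho_ball`), hence analytic; restrict to `ℝ`.
* `cf_cont`: `rho_closedBall`.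
-/

namespace Pool.Agent.H74.CC

open MeasureTheory Metric Pool.Agent.H74.CB

variable {n : ℕ} {P : V n →L[ℂ] V n}

private lemma nrm_ana (a v : V n) (t : ℝ) :
    AnalyticAt ℝ (fun s : ℝ => ‖a + s • v‖ ^ 2) t := by
  have h1 : (fun s : ℝ => ‖a + s • v‖ ^ 2)
      = (fun s : ℝ => ∑ i, (((a i).re + s * (v i).re) ^ 2
        + ((a i).im + s * (v i).im) ^ 2)) := by
    funext s
    rw [EuclideanSpace.norm_sq_eq]
    refine Finset.sum_congr rfl fun i _ => ?_
    rw [← Complex.normSq_eq_norm_sq, Complex.normSq_apply]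
    simp
    ring
  rw [h1]
  refine Finset.analyticAt_fun_sum _ fun i _ => ?_
  fun_prop

private lemma real_smul (s : ℝ) (v : V n) : (s : ℂ) • v = s • v := by
  ext i; simp

private lemma map_line (a v : V n) (s : ℝ) : P (a + s • v) = P a + s • P v := by
  rw [← real_smul s v, map_add, map_smul, real_smul]

private lemma nP_ana (a v : V n) (t : ℝ) :
    AnalyticAt ℝ (fun s : ℝ => ((‖P (a + s • v)‖ ^ 2 : ℝ) : ℂ)) t := by
  have h1 : (fun s : ℝ => ((‖P (a + s • v)‖ ^ 2 : ℝ) : ℂ)) =
      Complex.ofRealCLM ∘ (fun s : ℝ => ‖P a + s • P v‖ ^ 2) := by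
    funext s
    simp only [Function.comp, Complex.ofRealCLM_apply, map_line]
  rw [h1]
  exact (Complex.ofRealCLM.analyticAt _).comp (nrm_ana _ _ t)

private lemma nQ_ana (a v : V n) (t : ℝ) :
    AnalyticAt ℝ (fun s : ℝ => ((1 - ‖(a + s • v) - P (a + s • v)‖ ^ 2 : ℝ) : ℂ)) t := by
  have h1 : (fun s : ℝ => ((1 - ‖(a + s • v) - P (a + s • v)‖ ^ 2 : ℝ) : ℂ)) =
      Complex.ofRealCLM ∘ (fun s : ℝ => 1 - ‖(a - P a) + s • (v - P v)‖ ^ 2) := by
    funext s
    simp only [Function.comp, Complex.ofRealCLM_apply]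
    congr 4
    rw [map_line, smul_sub]
    abel
  rw [h1]
  exact (Complex.ofRealCLM.analyticAt _).comp (analyticAt_const.fun_sub (nrm_ana _ _ t))

private lemma f_ana (hP : IsPr P) (f : V n → ℂ) (hf : DifferentiableOn ℂ f (ball (0 : V n) 1))
    (l : closedBall (0 : ℂ) 1) (a v : V n) (t : ℝ) (ht : a + t • v ∈ ball (0 : V n) 1) :
    AnalyticAt ℝ (fun s : ℝ => f (rho P l (a + s • v))) t := by
  have hl : ‖(l : ℂ)‖ ≤ 1 := mem_closedBall_zero_iff.1 l.2
  set S : Set ℂ := {τ : ℂ | a + τ • v ∈ ball (0 : V n) 1} with hS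
  have hSo : IsOpen S := isOpen_ball.preimage (by fun_prop)
  have hd : DifferentiableOn ℂ (fun τ : ℂ => f (rho P l (a + τ • v))) S := by
    refine hf.comp (f := fun τ : ℂ => rho P l (a + τ • v)) ?_ ?_
    · refine Differentiable.differentiableOn ?_
      unfold rho
      fun_prop
    · intro τ hτ
      exact rho_ball hP l hl _ hτ
  have hts : (t : ℂ) ∈ S := by
    rw [hS, Set.mem_ofPred_eq, real_smul]
    exact ht
  have h3 : AnalyticAt ℂ (fun τ : ℂ => f (rho P l (a + τ • v))) (t : ℂ) :=
    hd.analyticAt (hSo.mem_nhds hts)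
  have h4 : AnalyticAt ℝ (fun τ : ℂ => f (rho P l (a + τ • v))) (Complex.ofRealCLM t) :=
    h3.restrictScalars
  have h5 := h4.comp (Complex.ofRealCLM.analyticAt t)
  have h6 : (fun τ : ℂ => f (rho P l (a + τ • v))) ∘ Complex.ofRealCLM
      = fun s : ℝ => f (rho P l (a + s • v)) := by
    funext s
    simp only [Function.comp, Complex.ofRealCLM_apply, real_smul]
  rw [h6] at h5
  exact h5

theorem cf_ana (hP : IsPr P) (M : ℕ) (f g : V n → ℂ)
    (hf : DifferentiableOn ℂ f (ball (0 : V n) 1)) (hg : DifferentiableOn ℂ g (ball (0 : V n) 1))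
    (l : closedBall (0 : ℂ) 1) (α : Fin (2 * M + 1) × Fin 2) (a v : V n) (t : ℝ)
    (ht : a + t • v ∈ ball (0 : V n) 1) :
    AnalyticAt ℝ (fun s : ℝ => cf P M f g (a + s • v) l α) t := by
  have hn := nP_ana (P := P) a v t
  have hm := nQ_ana (P := P) a v t
  have h1 := f_ana hP f hf l a v t ht
  have h2 := f_ana hP g hg l a v t ht
  have hp : AnalyticAt ℝ (fun s : ℝ => cp P M f (a + s • v) l α.1) t := by
    unfold cp
    exact (((hn.fun_mul hm).fun_pow M).fun_mul h1).fun_mul analyticAt_const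
  have hq : AnalyticAt ℝ (fun s : ℝ => cq P M g (a + s • v) l α.1) t := by
    unfold cq
    exact h2.fun_mul (((hn.fun_mul analyticAt_const).fun_pow _).fun_mul (hm.fun_pow _))
  by_cases hα : α.2 = 0
  · have : (fun s : ℝ => cf P M f g (a + s • v) l α)
        = fun s : ℝ => cp P M f (a + s • v) l α.1 - cq P M g (a + s • v) l α.1 := by
      funext s; simp [cf, hα]
    rw [this]
    exact hp.fun_sub hq
  · have : (fun s : ℝ => cf P M f g (a + s • v) l α)
        = fun s : ℝ => Complex.I * (cp P M f (a + s • v) l α.1 + cq P M g (a + s • v) l α.1) := by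
      funext s; simp [cf, hα]
    rw [this]
    exact analyticAt_const.fun_mul (hp.fun_add hq)

theorem cf_cont (hP : IsPr P) (M : ℕ) (f g : V n → ℂ)
    (hf : ContinuousOn f (closedBall (0 : V n) 1)) (hg : ContinuousOn g (closedBall (0 : V n) 1))
    (l : closedBall (0 : ℂ) 1) (α : Fin (2 * M + 1) × Fin 2) :
    ContinuousOn (fun w => cf P M f g w l α) (closedBall (0 : V n) 1) := by
  have hl : ‖(l : ℂ)‖ ≤ 1 := mem_closedBall_zero_iff.1 l.2
  have hm : Set.MapsTo (fun w : V n => rho P l w) (closedBall (0 : V n) 1)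
      (closedBall (0 : V n) 1) := fun w hw => rho_closedBall hP l hl w hw
  have hc : ContinuousOn (fun w : V n => rho P l w) (closedBall (0 : V n) 1) := by
    unfold rho
    fun_prop
  have h1 : ContinuousOn (fun w : V n => f (rho P l w)) (closedBall (0 : V n) 1) :=
    hf.comp hc hm
  have h2 : ContinuousOn (fun w : V n => g (rho P l w)) (closedBall (0 : V n) 1) :=
    hg.comp hc hm
  have hn : ContinuousOn (fun w : V n => ((‖P w‖ ^ 2 : ℝ) : ℂ)) (closedBall (0 : V n) 1) := by
    fun_prop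
  have hn2 : ContinuousOn (fun w : V n => ((1 - ‖w - P w‖ ^ 2 : ℝ) : ℂ))
      (closedBall (0 : V n) 1) := by
    fun_prop
  have hp : ContinuousOn (fun w : V n => cp P M f w l α.1) (closedBall (0 : V n) 1) := by
    unfold cp
    exact (((hn.mul hn2).pow M).mul h1).mul continuousOn_const
  have hq : ContinuousOn (fun w : V n => cq P M g w l α.1) (closedBall (0 : V n) 1) := by
    unfold cq
    exact h2.mul (((hn.mul continuousOn_const).pow _).mul (hn2.pow _))
  by_cases hα : α.2 = 0
  · have : (fun w => cf P M f g w l α)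
        = fun w => cp P M f w l α.1 - cq P M g w l α.1 := by
      funext s; simp [cf, hα]
    rw [this]
    exact hp.sub hq
  · have : (fun w => cf P M f g w l α)
        = fun w => Complex.I * (cp P M f w l α.1 + cq P M g w l α.1) := by
      funext s; simp [cf, hα]
    rw [this]
    exact continuousOn_const.mul (hp.add hq)

end Pool.Agent.H74.CC
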