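import Pool.Agent.H61.CE.Eset
import Pool.Agent.H81.CC.Lm

set_option autoImplicit false

/-!
# [H74 CC Mes] Measurability (the analogue of `H74/CB/Mes`)
-/

namespace Pool.Agent.H74.CC

open MeasureTheory Metric Pool.Agent.H74.CB

variable {n : ℕ} {P : V n →L[ℂ] V n}

theorem eset_meas (hP : IsPr P) (f g : V n → ℂ) (hf : ContinuousOn f (closedBall (0 : V n) 1))
    (hg : ContinuousOn g (closedBall (0 : V n) 1)) :
    MeasurableSet {ζ : sphere (0 : V n) 1 | ∀ t : ℂ, ‖t‖ = 1 →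
      ‖f (rho P t (ζ : V n))‖ = ‖g (rho P t (ζ : V n))‖ ∧ f (rho P t (ζ : V n)) ≠ 0} :=
  Pool.Agent.H61.CE.eset_meas hP f g hf hg

theorem line_meas (f g : V n → ℂ) (hf : ContinuousOn f (closedBall (0 : V n) 1))
    (hg : ContinuousOn g (closedBall (0 : V n) 1)) :
    MeasurableSet {p : V n × V n | p.1 ∈ ball (0 : V n) 1 ∧ p.2 ≠ 0 ∧
      ∀ s : ℂ, ‖p.1 + s • p.2‖ = 1 →
        ‖f (p.1 + s • p.2)‖ = ‖g (p.1 + s • p.2)‖ ∧ f (p.1 + s • p.2) ≠ 0} :=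
  Pool.Agent.H81.CC.line_meas f g hf hg

end Pool.Agent.H74.CC
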